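import Mathlib

/-!
# Unique solutions of systems of equations `x i = 1`, `x i + x j = x k`

If a system of equations of the forms `x i = 1` and `x i + x j = x k` in the unknowns
`x 1, ..., x n` has exactly one complex solution, then every coordinate of this solution is a
rational number whose numerator and denominator (in lowest terms) have absolute value at most
`2 ^ (n - 1)`.

The proof goes through Cramer's rule and the following determinant inequality (a case of an
inequality of Schinzel): if in every row of a real `m × m` matrix the positive entries sum to at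
most `2` and the absolute values of the negative entries sum to at most `1`, then the absolute
value of the determinant is at most `2 ^ m`.
-/

namespace Pool.Agent.Results.MP_555c3f_al.UniqueSolutionBound

open Matrix

/-! ### The equations -/

/-- The equations of `W_n`: `one i` stands for `x i = 1`, and `add i j k` for `x i + x j = x k`
(indices may coincide). -/
inductive Eqn (n : ℕ) : Type
  | one (i : Fin n) : Eqn n
  | add (i j k : Fin n) : Eqn n

/-- The point `x ∈ ℂ ^ n` satisfies the equation. -/
def Eqn.Holds {n : ℕ} (x : Fin n → ℂ) : Eqn n → Prop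
  | .one i => x i = 1
  | .add i j k => x i + x j = x k

/-- `x` is a solution of the system `S`: it satisfies every equation of `S`. -/
def IsSolution {n : ℕ} (S : Set (Eqn n)) (x : Fin n → ℂ) : Prop := ∀ e ∈ S, e.Holds x

/-! ### The determinant inequality -/

/-- The row condition: the positive entries sum to at most `2`, the absolute values of the negative
entries sum to at most `1`. -/
def Good {ι : Type*} [Fintype ι] (r : ι → ℝ) : Prop :=
  ∑ j, max (r j) 0 ≤ 2 ∧ ∑ j, max (-(r j)) 0 ≤ 1

lemma Good.comp_succAbove {m : ℕ} {r : Fin (m + 1) → ℝ} (h : Good r) (j : Fin (m + 1)) :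
    Good (fun l => r (j.succAbove l)) := by
  obtain ⟨h1, h2⟩ := h
  rw [Fin.sum_univ_succAbove _ j] at h1 h2
  have e1 : 0 ≤ max (r j) 0 := le_max_right _ _
  have e2 : 0 ≤ max (-(r j)) 0 := le_max_right _ _
  constructor <;> simp only [] <;> linarith

lemma Good.transfer {m : ℕ} {r : Fin (m + 1) → ℝ} (h : Good r) {j k : Fin (m + 1)} (hjk : j ≠ k) :
    Good (fun l => (fun l => if l = k then r k + (1 / 2) * r j else r l) (j.succAbove l)) := by
  obtain ⟨h1, h2⟩ := h
  have aux : ∀ g : ℝ → ℝ, (∀ a b, g (a + (1/2) * b) ≤ g a + g b) →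
      ∑ l, g ((fun l => if l = k then r k + (1 / 2) * r j else r l) (j.succAbove l))
        ≤ ∑ l, g (r l) := by
    intro g hg
    have e1 := Fin.sum_univ_succAbove (fun l => g (if l = k then r k + (1 / 2) * r j else r l)) j
    have e2 : ∑ l, g (if l = k then r k + (1 / 2) * r j else r l)
        = g (r k + (1 / 2) * r j) + ∑ l ∈ Finset.univ.erase k, g (r l) := by
      rw [← Finset.add_sum_erase _ _ (Finset.mem_univ k)]
      simp only [if_true]
      congr 1
      refine Finset.sum_congr rfl fun l hl => ?_
      rw [if_neg (Finset.ne_of_mem_erase hl)]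
    have e3 : ∑ l, g (r l) = g (r k) + ∑ l ∈ Finset.univ.erase k, g (r l) :=
      (Finset.add_sum_erase _ _ (Finset.mem_univ k)).symm
    have e4 := hg (r k) (r j)
    simp only [if_neg hjk] at e1
    linarith
  constructor
  · refine le_trans (aux (fun x => max x 0) ?_) h1
    intro a b
    rcases le_total b 0 with hb | hb
    · rw [max_eq_right hb]
      have : max (a + 1 / 2 * b) 0 ≤ max a 0 := max_le_max (by linarith) le_rfl
      linarith
    · rw [max_eq_left hb]
      refine max_le ?_ ?_
      · have := le_max_left a 0; linarith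
      · have := le_max_right a 0; linarith
  · refine le_trans (aux (fun x => max (-x) 0) ?_) h2
    intro a b
    rcases le_total b 0 with hb | hb
    · rw [max_eq_left (show 0 ≤ -b by linarith)]
      refine max_le ?_ ?_
      · have := le_max_left (-a) 0; linarith
      · have := le_max_right (-a) 0; linarith
    · rw [max_eq_right (show -b ≤ 0 by linarith)]
      have : max (-(a + 1 / 2 * b)) 0 ≤ max (-a) 0 := max_le_max (by linarith) le_rfl
      linarith

lemma sum_le_of_extreme {m : ℕ} (c : Fin (m + 1) → ℝ) (T : ℝ)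
    (h1 : ∀ j, 2 * |c j| ≤ T) (h2 : ∀ j k, j ≠ k → |2 * c j - c k| ≤ T)
    (r : Fin (m + 1) → ℝ) (hr : Good r) : ∑ j, r j * c j ≤ T := by
  obtain ⟨hP, hN⟩ := hr
  obtain ⟨j, hj⟩ := Finite.exists_max c
  obtain ⟨k, hk⟩ := Finite.exists_min c
  have hsplit : ∑ l, r l * c l = ∑ l, max (r l) 0 * c l - ∑ l, max (-(r l)) 0 * c l := by
    rw [← Finset.sum_sub_distrib]
    refine Finset.sum_congr rfl fun l _ => ?_
    rw [← sub_mul]
    congr 1
    rcases le_total (r l) 0 with h | h
    · rw [max_eq_right h, max_eq_left (by linarith)]; ring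
    · rw [max_eq_left h, max_eq_right (by linarith)]; ring
  set u := max (c j) 0 with hu
  set v := max (-(c k)) 0 with hv
  have hu0 : 0 ≤ u := le_max_right _ _
  have hv0 : 0 ≤ v := le_max_right _ _
  have b1 : ∑ l, max (r l) 0 * c l ≤ 2 * u := by
    calc ∑ l, max (r l) 0 * c l ≤ ∑ l, max (r l) 0 * u := by
          refine Finset.sum_le_sum fun l _ => ?_
          exact mul_le_mul_of_nonneg_left ((hj l).trans (le_max_left _ _)) (le_max_right _ _)
      _ = (∑ l, max (r l) 0) * u := by rw [Finset.sum_mul]
      _ ≤ 2 * u := mul_le_mul_of_nonneg_right hP hu0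
  have b2 : -(∑ l, max (-(r l)) 0 * c l) ≤ v := by
    calc -(∑ l, max (-(r l)) 0 * c l) = ∑ l, max (-(r l)) 0 * (-(c l)) := by
          rw [← Finset.sum_neg_distrib]; refine Finset.sum_congr rfl fun l _ => by ring
      _ ≤ ∑ l, max (-(r l)) 0 * v := by
          refine Finset.sum_le_sum fun l _ => ?_
          exact mul_le_mul_of_nonneg_left ((neg_le_neg (hk l)).trans (le_max_left _ _))
            (le_max_right _ _)
      _ = (∑ l, max (-(r l)) 0) * v := by rw [Finset.sum_mul]
      _ ≤ 1 * v := mul_le_mul_of_nonneg_right hN hv0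
      _ = v := one_mul v
  have key : 2 * u + v ≤ T := by
    have a1 := h1 j
    have a2 := h1 k
    have a3 := abs_le.1 (show |c j| ≤ T / 2 by linarith)
    have a4 := abs_le.1 (show |c k| ≤ T / 2 by linarith)
    have hT : 0 ≤ T := le_trans (by positivity) a1
    rcases le_total (c j) 0 with h | h
    · have : u = 0 := max_eq_right h
      rw [this]
      have : v ≤ T / 2 := max_le (by linarith) (by linarith)
      linarith
    · have hu' : u = c j := max_eq_left h
      rcases le_total (c k) 0 with h' | h'
      · have hv' : v = -(c k) := max_eq_left (by linarith)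
        by_cases hjk : j = k
        · have : c j = c k := by rw [hjk]
          rw [hu', hv']; linarith
        · have := (abs_le.1 (h2 j k hjk)).2
          rw [hu', hv']; linarith
      · have hv' : v = 0 := max_eq_right (by linarith)
        rw [hu', hv']; linarith
  rw [hsplit]; linarith

lemma abs_sum_le_of_extreme {m : ℕ} (c : Fin (m + 1) → ℝ) (T : ℝ)
    (h1 : ∀ j, 2 * |c j| ≤ T) (h2 : ∀ j k, j ≠ k → |2 * c j - c k| ≤ T)
    (r : Fin (m + 1) → ℝ) (hr : Good r) : |∑ j, r j * c j| ≤ T := by
  rw [abs_le]
  constructor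
  · have := sum_le_of_extreme (fun j => -(c j)) T (fun j => by simpa using h1 j)
      (fun j k hjk => by
        have := h2 j k hjk
        rw [show 2 * -(c j) - -(c k) = -(2 * c j - c k) by ring, abs_neg]
        exact this) r hr
    simp only [mul_neg, Finset.sum_neg_distrib] at this
    linarith
  · exact sum_le_of_extreme c T h1 h2 r hr

/-- The determinant inequality: if in every row of a real `m × m` matrix the positive entries sum
to at most `2` and the absolute values of the negative entries sum to at most `1`, then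
`|det A| ≤ 2 ^ m`. -/
theorem abs_det_le : ∀ (m : ℕ) (A : Matrix (Fin m) (Fin m) ℝ), (∀ i, Good (A i)) →
    |A.det| ≤ 2 ^ m := by
  intro m
  induction m with
  | zero => intro A _; simp
  | succ m ih =>
    intro A hA
    set c : Fin (m + 1) → ℝ := fun j =>
      (-1) ^ (j : ℕ) * (A.submatrix Fin.succ j.succAbove).det with hc
    have hdet : ∀ r : Fin (m + 1) → ℝ, (A.updateRow 0 r).det = ∑ j, r j * c j := by
      intro r
      rw [Matrix.det_succ_row_zero]
      refine Finset.sum_congr rfl fun j _ => ?_
      have : (A.updateRow 0 r).submatrix Fin.succ j.succAbove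
          = A.submatrix Fin.succ j.succAbove := by
        ext a b
        simp [Matrix.submatrix_apply, Matrix.updateRow_apply, Fin.succ_ne_zero]
      rw [this]
      simp only [Matrix.updateRow_self, hc]
      ring
    have habs : ∀ j, |c j| = |(A.submatrix Fin.succ j.succAbove).det| := by
      intro j
      simp only [hc, abs_mul, abs_pow, abs_neg, abs_one, one_pow, one_mul]
    have h1 : ∀ j, 2 * |c j| ≤ 2 ^ (m + 1) := by
      intro j
      have := ih (A.submatrix Fin.succ j.succAbove) (fun i => (hA i.succ).comp_succAbove j)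
      rw [habs, pow_succ]
      linarith
    have h2 : ∀ j k, j ≠ k → |2 * c j - c k| ≤ 2 ^ (m + 1) := by
      intro j k hjk
      -- the matrix with row zero `2 e_j - e_k`
      set r : Fin (m + 1) → ℝ := Pi.single j 2 - Pi.single k 1 with hr
      set B := A.updateRow 0 r with hB
      have hBdet : B.det = 2 * c j - c k := by
        rw [hB, hdet]
        simp only [hr, Pi.sub_apply, sub_mul, Finset.sum_sub_distrib]
        rw [Finset.sum_eq_single j, Finset.sum_eq_single k]
        · simp
        · intro b _ hb; simp [hb]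
        · simp
        · intro b _ hb; simp [hb]
        · simp
      set B' := B.updateCol k (fun i => B i k + (1 / 2 : ℝ) • B i j) with hB'
      have hB'det : B'.det = B.det := by
        rw [hB']
        exact Matrix.det_updateCol_add_smul_self B (Ne.symm hjk) (1 / 2)
      have hB'0 : ∀ l, B' 0 l = if l = j then 2 else 0 := by
        intro l
        rw [hB', Matrix.updateCol_apply]
        by_cases hlk : l = k
        · subst hlk
          simp [hB, hr, Ne.symm hjk]
        · simp only [hlk, if_false, hB, hr, Matrix.updateRow_self, Pi.sub_apply,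
            Pi.single_apply, sub_zero]
      have hexp : B'.det = 2 * ((-1) ^ (j : ℕ) * (B'.submatrix Fin.succ j.succAbove).det) := by
        rw [Matrix.det_succ_row_zero, Finset.sum_eq_single j]
        · rw [hB'0]; simp; ring
        · intro b _ hb; rw [hB'0]; simp [hb]
        · simp
      have hgood : ∀ i, Good (B'.submatrix Fin.succ j.succAbove i) := by
        intro i
        have hval : B' i.succ = fun l => if l = k then A i.succ k + (1 / 2) * A i.succ j
            else A i.succ l := by
          funext l
          rw [hB', Matrix.updateCol_apply]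
          simp [hB, Matrix.updateRow_apply, Fin.succ_ne_zero]
        have := (hA i.succ).transfer hjk
        rw [← hval] at this
        exact this
      have := ih _ hgood
      rw [← hBdet, ← hB'det, hexp, abs_mul, abs_mul, abs_pow, abs_neg, abs_one, one_pow, one_mul,
        pow_succ]
      rw [show |(2 : ℝ)| = 2 by norm_num]
      linarith
    have := abs_sum_le_of_extreme c _ h1 h2 (A 0) (hA 0)
    rw [← hdet, Matrix.updateRow_eq_self] at this
    exact this

/-- Integer version. -/
theorem abs_det_le_int (m : ℕ) (A : Matrix (Fin m) (Fin m) ℤ)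
    (hA : ∀ i, Good (fun j => (A i j : ℝ))) : |A.det| ≤ 2 ^ m := by
  have h := abs_det_le m (A.map (Int.castRingHom ℝ)) (fun i => hA i)
  have h2 : (A.map (Int.castRingHom ℝ)).det = ((A.det : ℤ) : ℝ) := by
    have := RingHom.map_det (Int.castRingHom ℝ) A
    rw [RingHom.mapMatrix_apply] at this
    rw [← this]; simp
  rw [h2] at h
  exact_mod_cast h

/-! ### Rows of the system -/

/-- Coefficient row of an equation. -/
def row {n : ℕ} : Eqn n → Fin n → ℤ
  | .one i => Pi.single i 1
  | .add i j k => Pi.single i 1 + Pi.single j 1 - Pi.single k 1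

/-- Right-hand side of an equation. -/
def rhs {n : ℕ} : Eqn n → ℤ
  | .one _ => 1
  | .add _ _ _ => 0

lemma holds_iff {n : ℕ} (x : Fin n → ℂ) (e : Eqn n) :
    e.Holds x ↔ ∑ l, (row e l : ℂ) * x l = (rhs e : ℂ) := by
  cases e with
  | one i =>
    have : ∑ l, ((Pi.single i 1 : Fin n → ℤ) l : ℂ) * x l = x i := by
      rw [Finset.sum_eq_single i] <;> simp +contextual
    simp [Eqn.Holds, row, rhs, this]
  | add i j k =>
    have h : ∀ i, ∑ l, ((Pi.single i 1 : Fin n → ℤ) l : ℂ) * x l = x i := by
      intro i
      rw [Finset.sum_eq_single i] <;> simp +contextual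
    simp only [Eqn.Holds, row, rhs, Pi.add_apply, Pi.sub_apply, Int.cast_add, Int.cast_sub,
      add_mul, sub_mul, Finset.sum_add_distrib, Finset.sum_sub_distrib, h, Int.cast_zero]
    rw [sub_eq_zero]

lemma good_of_sub {m : ℕ} {r : Fin m → ℝ} (p q : Fin m → ℝ) (hr : ∀ l, r l = p l - q l)
    (hp : ∀ l, 0 ≤ p l) (hq : ∀ l, 0 ≤ q l) (hp2 : ∑ l, p l ≤ 2) (hq1 : ∑ l, q l ≤ 1) :
    Good r := by
  constructor
  · refine le_trans (Finset.sum_le_sum fun l _ => ?_) hp2
    rw [hr]; exact max_le (by linarith [hq l]) (hp l)
  · refine le_trans (Finset.sum_le_sum fun l _ => ?_) hq1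
    rw [hr]; exact max_le (by linarith [hp l]) (hq l)

lemma single_nonneg {n : ℕ} (i l : Fin n) : (0 : ℝ) ≤ (Pi.single i 1 : Fin n → ℝ) l := by
  rw [Pi.single_apply]; split_ifs <;> norm_num

lemma sum_single_succAbove_le {m : ℕ} (i j : Fin (m + 1)) :
    ∑ l, (Pi.single i 1 : Fin (m + 1) → ℝ) (j.succAbove l) ≤ 1 := by
  have h1 := Fin.sum_univ_succAbove (Pi.single i 1 : Fin (m + 1) → ℝ) j
  have h2 : ∑ l, (Pi.single i 1 : Fin (m + 1) → ℝ) l = 1 := by simp
  have h3 := single_nonneg i j
  linarith

lemma cast_single {n : ℕ} (i l : Fin n) :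
    (((Pi.single i 1 : Fin n → ℤ) l : ℤ) : ℝ) = (Pi.single i 1 : Fin n → ℝ) l := by
  rw [Pi.single_apply, Pi.single_apply]; split_ifs <;> simp

lemma good_row {m : ℕ} (e : Eqn (m + 1)) (j : Fin (m + 1)) :
    Good (fun l => ((row e (j.succAbove l) : ℤ) : ℝ)) := by
  cases e with
  | one i =>
    refine good_of_sub (fun l => (Pi.single i 1 : Fin (m + 1) → ℝ) (j.succAbove l))
      (fun _ => 0) (fun l => ?_) (fun l => single_nonneg _ _) (fun l => le_rfl) ?_ ?_
    · simp only [row, cast_single, sub_zero]
    · have := sum_single_succAbove_le i j; linarith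
    · simp
  | add a b c =>
    refine good_of_sub (fun l => (Pi.single a 1 : Fin (m + 1) → ℝ) (j.succAbove l)
        + (Pi.single b 1 : Fin (m + 1) → ℝ) (j.succAbove l))
      (fun l => (Pi.single c 1 : Fin (m + 1) → ℝ) (j.succAbove l)) (fun l => ?_)
      (fun l => add_nonneg (single_nonneg _ _) (single_nonneg _ _))
      (fun l => single_nonneg _ _) ?_ ?_
    · simp only [row, Pi.add_apply, Pi.sub_apply, Int.cast_add, Int.cast_sub, cast_single]
    · rw [Finset.sum_add_distrib]
      have h1 := sum_single_succAbove_le a j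
      have h2 := sum_single_succAbove_le b j
      linarith
    · exact sum_single_succAbove_le c j

lemma good_row_sub {m : ℕ} (a b : Fin (m + 1)) (j : Fin (m + 1)) :
    Good (fun l => ((row (Eqn.one a) (j.succAbove l) - row (Eqn.one b) (j.succAbove l) : ℤ) : ℝ)) := by
  refine good_of_sub (fun l => (Pi.single a 1 : Fin (m + 1) → ℝ) (j.succAbove l))
      (fun l => (Pi.single b 1 : Fin (m + 1) → ℝ) (j.succAbove l)) (fun l => ?_)
      (fun l => single_nonneg _ _) (fun l => single_nonneg _ _) ?_ ?_
  · simp only [row, Int.cast_sub, cast_single]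
  · have := sum_single_succAbove_le a j; linarith
  · exact sum_single_succAbove_le b j

/-- The matrix of a square subsystem. -/
def mat {n : ℕ} (E : Fin n → Eqn n) : Matrix (Fin n) (Fin n) ℤ := Matrix.of fun r => row (E r)

lemma abs_det_mat_le {m : ℕ} (E : Fin (m + 1) → Eqn (m + 1)) (r0 j0 : Fin (m + 1))
    (h0 : E r0 = Eqn.one j0) : |(mat E).det| ≤ 2 ^ m := by
  have h1 : (mat E).det = (-1) ^ (r0 + j0 : ℕ) *
      ((mat E).submatrix r0.succAbove j0.succAbove).det := by
    rw [Matrix.det_succ_row (mat E) r0, Finset.sum_eq_single j0]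
    · simp [mat, h0, row]
    · intro b _ hb
      simp [mat, h0, row, hb]
    · simp
  rw [h1, abs_mul, abs_pow, abs_neg, abs_one, one_pow, one_mul]
  exact abs_det_le_int m _ (fun i => good_row (E (r0.succAbove i)) j0)

lemma abs_det_updateCol_le {m : ℕ} (E : Fin (m + 1) → Eqn (m + 1)) (r0 j0 : Fin (m + 1))
    (h0 : E r0 = Eqn.one j0) (i : Fin (m + 1)) :
    |((mat E).updateCol i (fun r => rhs (E r))).det| ≤ 2 ^ m := by
  set A := (mat E).updateCol i (fun r => rhs (E r)) with hA
  set B : Matrix (Fin (m + 1)) (Fin (m + 1)) ℤ := Matrix.of fun r l =>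
    A r l - (if r = r0 then 0 else rhs (E r)) * A r0 l with hB
  have hAr0i : A r0 i = 1 := by simp [hA, h0, rhs]
  have hBr0 : ∀ l, B r0 l = A r0 l := by intro l; simp [hB]
  have hdet : B.det = A.det := by
    refine Matrix.det_eq_of_forall_row_eq_smul_add_const
      (fun r => -(if r = r0 then 0 else rhs (E r))) r0 (by simp) ?_
    intro r l
    simp only [hB, Matrix.of_apply]
    ring
  have hcol : ∀ r, r ≠ r0 → B r i = 0 := by
    intro r hr
    simp only [hB, Matrix.of_apply, if_neg hr, hAr0i]
    simp [hA]
  have h1 : B.det = (-1) ^ (r0 + i : ℕ) *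
      (B.submatrix r0.succAbove i.succAbove).det := by
    rw [Matrix.det_succ_column B i, Finset.sum_eq_single r0]
    · rw [hBr0, hAr0i, mul_one]
    · intro b _ hb
      rw [hcol b hb]; simp
    · simp
  rw [← hdet, h1, abs_mul, abs_pow, abs_neg, abs_one, one_pow, one_mul]
  refine abs_det_le_int m _ (fun r => ?_)
  have hne : r0.succAbove r ≠ r0 := Fin.succAbove_ne r0 r
  have hBval : ∀ l, B (r0.succAbove r) (i.succAbove l)
      = row (E (r0.succAbove r)) (i.succAbove l)
        - rhs (E (r0.succAbove r)) * row (Eqn.one j0) (i.succAbove l) := by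
    intro l
    have hli : i.succAbove l ≠ i := Fin.succAbove_ne i l
    simp only [hB, Matrix.of_apply, if_neg hne, hA, Matrix.updateCol_apply, if_neg hli, mat, h0]
  simp only [Matrix.submatrix_apply, hBval]
  cases hE : E (r0.succAbove r) with
  | one a =>
    simp only [rhs, one_mul]
    exact good_row_sub a j0 i
  | add a b c =>
    simp only [rhs, zero_mul, sub_zero]
    exact good_row (Eqn.add a b c) i

/-- Extraction of a square subsystem with nonzero determinant. -/
lemma exists_square {n : ℕ} (S : Set (Eqn n)) (x : Fin n → ℂ) (hx : IsSolution S x)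
    (huniq : ∀ y, IsSolution S y → y = x) :
    ∃ E : Fin n → Eqn n, (∀ r, E r ∈ S) ∧ (mat E).det ≠ 0 := by
  classical
  let R : Eqn n → (Fin n → ℂ) := fun e l => (row e l : ℂ)
  -- the rows span
  have hspan : Submodule.span ℂ (R '' S) = ⊤ := by
    by_contra hne
    obtain ⟨f, hf0, hf⟩ := Submodule.exists_le_ker_of_lt_top _ (lt_top_iff_ne_top.2 hne)
    -- the functional gives a vector in the kernel
    set v : Fin n → ℂ := fun l => f (Pi.single l 1) with hv
    have hfv : ∀ w : Fin n → ℂ, f w = ∑ l, w l * v l := by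
      intro w
      conv_lhs => rw [← Finset.univ_sum_single w]
      rw [map_sum]
      refine Finset.sum_congr rfl fun l _ => ?_
      rw [show (Pi.single l (w l) : Fin n → ℂ) = w l • Pi.single l 1 by
        rw [← Pi.single_smul]; simp, map_smul, smul_eq_mul]
    have hsol : IsSolution S (x + v) := by
      intro e he
      rw [holds_iff]
      have h1 := (holds_iff x e).1 (hx e he)
      have h2 : f (R e) = 0 := hf (Submodule.subset_span ⟨e, he, rfl⟩)
      rw [hfv] at h2
      simp only [Pi.add_apply, mul_add, Finset.sum_add_distrib, h1]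
      simp only [R] at h2
      rw [h2, add_zero]
    have := huniq _ hsol
    have hv0 : v = 0 := by simpa using this
    apply hf0
    ext l
    simp [hfv, hv0]
  obtain ⟨b, hbS, hbspan, hbli⟩ := exists_linearIndependent ℂ (R '' S)
  rw [hspan] at hbspan
  let B := Module.Basis.mk hbli (by rw [Subtype.range_coe]; exact hbspan.ge)
  have hfin : Fintype b := Module.Basis.fintypeIndexOfRankLtAleph0 B (by
    rw [rank_fin_fun]; exact Cardinal.natCast_lt_aleph0)
  have hcard : Fintype.card b = n := by
    have := Module.finrank_eq_card_basis B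
    rw [Module.finrank_fin_fun] at this
    exact this.symm
  let φ : Fin n ≃ b := (Fintype.equivFinOfCardEq hcard).symm
  have hex : ∀ y : b, ∃ e ∈ S, R e = y := fun y => hbS y.2
  choose E0 hE0S hE0 using hex
  refine ⟨fun r => E0 (φ r), fun r => hE0S _, ?_⟩
  intro hdet
  have hli : LinearIndependent ℂ (fun r => R (E0 (φ r))) := by
    have heq : (fun r => R (E0 (φ r))) = (fun y : b => (y : Fin n → ℂ)) ∘ φ :=
      funext fun r => hE0 (φ r)
    rw [heq]
    exact hbli.comp φ φ.injective
  have h2 : ((mat fun r => E0 (φ r)).map (Int.castRingHom ℂ)).det = 0 := by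
    have := RingHom.map_det (Int.castRingHom ℂ) (mat fun r => E0 (φ r))
    rw [RingHom.mapMatrix_apply, hdet] at this
    rw [← this]; simp
  have h3 : LinearIndependent ℂ ((mat fun r => E0 (φ r)).map (Int.castRingHom ℂ)).row := hli
  rw [Matrix.linearIndependent_rows_iff_isUnit, Matrix.isUnit_iff_isUnit_det, h2] at h3
  exact not_isUnit_zero h3

/-- The main theorem for a given solution `x`. -/
theorem main (n : ℕ) (hn : 1 ≤ n) (S : Set (Eqn n)) (x : Fin n → ℂ) (hx : IsSolution S x)
    (huniq : ∀ y, IsSolution S y → y = x) (i : Fin n) :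
    ∃ q : ℚ, x i = (q : ℂ) ∧ |q.num| ≤ 2 ^ (n - 1) ∧ q.den ≤ 2 ^ (n - 1) := by
  obtain ⟨E, hES, hdet⟩ := exists_square S x hx huniq
  obtain ⟨m, rfl⟩ : ∃ m, n = m + 1 := ⟨n - 1, by omega⟩
  rw [Nat.add_sub_cancel]
  set D := (mat E).det with hD
  set a := ((mat E).updateCol i (fun r => rhs (E r))).det with ha
  -- Cramer
  have hcr : (D : ℂ) * x i = (a : ℂ) := by
    set M := (mat E).map (Int.castRingHom ℂ) with hM
    have hMx : M *ᵥ x = fun r => (rhs (E r) : ℂ) := by
      funext r
      have := (holds_iff x (E r)).1 (hx _ (hES r))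
      simpa [Matrix.mulVec, dotProduct, hM, mat] using this
    have h1 : M.cramer (fun r => (rhs (E r) : ℂ)) = M.det • x := by
      rw [← hMx, Matrix.cramer_eq_adjugate_mulVec, Matrix.mulVec_mulVec, Matrix.adjugate_mul,
        Matrix.smul_mulVec, Matrix.one_mulVec]
    have h2 := congrFun h1 i
    rw [Matrix.cramer_apply, Pi.smul_apply, smul_eq_mul] at h2
    have h3 : M.det = (D : ℂ) := by
      have := RingHom.map_det (Int.castRingHom ℂ) (mat E)
      rw [RingHom.mapMatrix_apply] at this
      rw [hM, ← this]; simp [hD]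
    have h4 : (M.updateCol i (fun r => (rhs (E r) : ℂ))).det = (a : ℂ) := by
      have := RingHom.map_det (Int.castRingHom ℂ) ((mat E).updateCol i (fun r => rhs (E r)))
      rw [RingHom.mapMatrix_apply] at this
      have h5 : ((mat E).updateCol i (fun r => rhs (E r))).map (Int.castRingHom ℂ)
          = M.updateCol i (fun r => (rhs (E r) : ℂ)) := by
        ext r l
        simp only [Matrix.map_apply, Matrix.updateCol_apply, hM]
        split_ifs <;> simp
      rw [← h5, ← this]; simp [ha]
    rw [← h3, ← h4, h2]
  have hD0 : (D : ℂ) ≠ 0 := by exact_mod_cast hdet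
  have hxi : x i = (((a : ℚ) / (D : ℚ) : ℚ) : ℂ) := by
    rw [eq_comm]
    push_cast
    rw [div_eq_iff hD0, ← hcr]; ring
  refine ⟨(a : ℚ) / (D : ℚ), hxi, ?_⟩
  by_cases hone : ∃ r0 j0, E r0 = Eqn.one j0
  · obtain ⟨r0, j0, h0⟩ := hone
    have hDle : |D| ≤ 2 ^ m := abs_det_mat_le E r0 j0 h0
    have hale : |a| ≤ 2 ^ m := abs_det_updateCol_le E r0 j0 h0 i
    have hdiv : ((a : ℚ) / (D : ℚ)) = Rat.divInt a D := by
      rw [Rat.divInt_eq_div]
    rw [hdiv]
    constructor
    · by_cases ha0 : a = 0
      · rw [ha0]; simp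
      · have h1 : (Rat.divInt a D).num ∣ a := Rat.num_dvd a hdet
        have h2 : |(Rat.divInt a D).num| ≤ |a| :=
          Int.le_of_dvd (abs_pos.2 ha0) ((abs_dvd_abs _ _).2 h1)
        exact h2.trans hale
    · have h1 : ((Rat.divInt a D).den : ℤ) ∣ D := Rat.den_dvd a D
      have h2 : ((Rat.divInt a D).den : ℤ) ≤ |D| :=
        Int.le_of_dvd (abs_pos.2 hdet) ((dvd_abs _ _).2 h1)
      have h3 := h2.trans hDle
      exact_mod_cast h3
  · -- all right-hand sides vanish
    have hrhs : ∀ r, rhs (E r) = 0 := by
      intro r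
      cases hE : E r with
      | one j => exact absurd ⟨r, j, hE⟩ hone
      | add a b c => rfl
    have ha0 : a = 0 := by
      rw [ha]
      apply Matrix.det_eq_zero_of_column_eq_zero i
      intro r
      simp [hrhs]
    rw [ha0]
    simp only [Int.cast_zero, zero_div, Rat.num_zero, abs_zero, Rat.den_zero]
    exact ⟨by positivity, Nat.one_le_two_pow⟩

/-- **Main theorem.** If a system `S ⊆ W_n` has exactly one complex solution `x`, then every
coordinate `x i` is a rational number whose numerator and denominator in lowest terms are at most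
`2 ^ (n - 1)` in absolute value. -/
theorem result (n : ℕ) (hn : 1 ≤ n) (S : Set (Eqn n)) (hS : ∃! x : Fin n → ℂ, IsSolution S x)
    (x : Fin n → ℂ) (hx : IsSolution S x) (i : Fin n) :
    ∃ q : ℚ, x i = (q : ℂ) ∧ |q.num| ≤ 2 ^ (n - 1) ∧ q.den ≤ 2 ^ (n - 1) :=
  main n hn S x hx (fun _ hy => hS.unique hy hx) i

end Pool.Agent.Results.MP_555c3f_al.UniqueSolutionBound
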